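import Pool.Agent.Run7.h175.CTF.Res

/-!
# `CT_P(ℤ)` is finitely presented: a flat connection is a coboundary (piece POT)
-/

set_option autoImplicit false

noncomputable section

open scoped Classical

namespace Pool.Agent.Run7.h341.CTF

open Equiv

variable {S : Finset ℕ} {H : Type} [Group H]

/-- the product of `φ` along some path of splits from `v` to the full frame of modulus `M` -/
inductive PP (S : Finset ℕ) (φ : V → V → H) (M : ℤ) : V → H → Prop
  | done : PP S φ M (UM M) 1
  | step (v : V) (f : ℤ → ℤ) (p : ℕ) (h : H) (hf : f ∈ v) (hp : p ∈ S)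
      (hh : PP S φ M (split v f p) h) : PP S φ M v (φ v (split v f p) * h)

theorem PP.isBelow {φ : V → V → H} {M : ℤ} {v : V} {h : H} (hp : PP S φ M v h) : Below S M v := by
  induction hp with
  | done => exact below_UM
  | step v f p h hf hp _ ih => exact Below.of_split hp ih

theorem PP.exists (hS : PS S) (φ : V → V → H) {M : ℤ} :
    ∀ (n : ℕ) (v : V), Frame S v → Below S M v → M ≤ v.card + n → ∃ h, PP S φ M v h := by
  intro n
  induction n with
  | zero =>
    intro v hv hb hn
    rcases Below.cases hv hb with rfl | ⟨f, hf, p, hp, hb'⟩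
    · exact ⟨1, PP.done⟩
    · exfalso
      have h1 := hb'.card_le hS (frame_split hS hv hf hp)
      have h2 := card_split hS hv hf hp
      have h3 := (hS.prime p hp).two_le
      push_cast at hn
      omega
  | succ n ih =>
    intro v hv hb hn
    rcases Below.cases hv hb with rfl | ⟨f, hf, p, hp, hb'⟩
    · exact ⟨1, PP.done⟩
    · have h2 := card_split hS hv hf hp
      have h3 := (hS.prime p hp).two_le
      obtain ⟨h, hh⟩ := ih _ (frame_split hS hv hf hp) hb' (by push_cast at hn; omega)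
      exact ⟨_, PP.step v f p h hf hp hh⟩

theorem PP.exists' (hS : PS S) (φ : V → V → H) {M : ℤ} {v : V} (hv : Frame S v)
    (hb : Below S M v) : ∃ h, PP S φ M v h :=
  PP.exists hS φ (M.toNat) v hv hb (by omega)

/-- a run of splits -/
theorem PP.run {φ : V → V → H} {M : ℤ} {q : ℕ} (hq : q ∈ S) :
    ∀ (l : List (ℤ → ℤ)) (v : V) (h : H), l.Nodup → (∀ a ∈ l, a ∈ v) →
      PP S φ M (runV q v l) h → PP S φ M v (runH φ q v l * h) := by
  intro l
  induction l with
  | nil =>
    intro v h _ _ hp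
    rw [runH, one_mul]
    exact hp
  | cons a l ih =>
    intro v h hl hlv hp
    rw [runH, mul_assoc]
    rw [List.nodup_cons] at hl
    refine PP.step v a q _ (hlv a List.mem_cons_self) hq ?_
    refine ih _ _ hl.2 ?_ hp
    intro b hb
    refine mem_split_of_ne (hlv b (List.mem_cons_of_mem _ hb)) ?_
    rintro rfl
    exact hl.1 hb

/-- uniqueness of the product -/
theorem PP.unique (hS : PS S) {φ : V → V → H} (hsq : ∀ n, SqFlat S φ n) (hdi : ∀ n, DiFlat S φ n)
    {M : ℤ} (hM : 0 < M) :
    ∀ (n : ℕ) (v : V) (h h' : H), Frame S v → M ≤ v.card + n → PP S φ M v h → PP S φ M v h' →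
      h = h' := by
  intro n
  induction n using Nat.strong_induction_on with
  | _ n ih =>
  intro v h h' hv hn hp hp'
  -- steps increase the rank
  have hstep : ∀ f ∈ v, ∀ p ∈ S, Below S M (split v f p) →
      ∃ n' < n, M ≤ ((split v f p).card : ℤ) + n' := by
    intro f hf p hp hb
    have h1 := hb.card_le hS (frame_split hS hv hf hp)
    have h2 := card_split hS hv hf hp
    have h3 := (hS.prime p hp).two_le
    refine ⟨n - 1, by omega, by omega⟩
  -- no step from the full frame
  have hfull : ∀ f ∈ v, ∀ p ∈ S, v = UM M → ¬ Below S M (split v f p) := by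
    intro f hf p hp hvM hb
    have h1 := hb.card_le hS (frame_split hS hv hf hp)
    have h2 := card_split hS hv hf hp
    have h3 := (hS.prime p hp).two_le
    have h4 := card_UM hM
    rw [← hvM] at h4
    omega
  have hone : v = UM M → ∀ x : H, PP S φ M v x → x = 1 := by
    intro hvM x hx
    cases hx with
    | done => rfl
    | step _ f p h hf hp hh => exact absurd hh.isBelow (hfull f hf p hp hvM)
  by_cases hvM : v = UM M
  · rw [hone hvM h hp, hone hvM h' hp']
  cases hp with
  | done => exact absurd rfl hvM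
  | step _ f p h1 hf hp hh1 =>
  cases hp' with
  | done => exact absurd rfl hvM
  | step _ g q h2 hg hq hh2 =>
  obtain ⟨n1, hn1, hc1⟩ := hstep f hf p hp hh1.isBelow
  obtain ⟨n2, hn2, hc2⟩ := hstep g hg q hq hh2.isBelow
  have hv1 := frame_split hS hv hf hp
  have hv2 := frame_split hS hv hg hq
  by_cases hfg : f = g
  · subst hfg
    by_cases hpq : p = q
    · subst hpq
      rw [ih n1 hn1 _ h1 h2 hv1 hc1 hh1 hh2]
    · -- the diamond
      have hinj : Function.Injective f := (hv.pc f hf).inj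
      have hl1 : (chl f p).Nodup := nodup_chl hinj p
      have hl2 : (chl f q).Nodup := nodup_chl hinj q
      have hs1 : ∀ a ∈ chl f p, a ∈ split v f p := fun a ha => ch_sub_split (mem_chl.mp ha)
      have hs2 : ∀ a ∈ chl f q, a ∈ split v f q := fun a ha => ch_sub_split (mem_chl.mp ha)
      have hdia := runV_diamond hS hv hf hp hq
      have hw : Frame S (runV q (split v f p) (chl f p)) := frame_runV hS hq hv1 hl1 hs1
      have hb : Below S M (runV q (split v f p) (chl f p)) := by
        intro x hx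
        rw [mem_runV hS hq hv1 hl1 hs1] at hx
        rcases hx with ⟨hx, hxl⟩ | ⟨a, ha, hx⟩
        · exact hh1.isBelow x hx
        · obtain ⟨i, hi, rfl⟩ := mem_ch.mp (mem_chl.mp ha)
          obtain ⟨j, hj, rfl⟩ := mem_ch.mp hx
          refine Res.lcm hS hinj hp hq hpq ?_ ?_ hi hj
          · intro i hi
            exact hh1.isBelow _ (ch_sub_split (mem_ch.mpr ⟨i, hi, rfl⟩))
          · intro j hj
            exact hh2.isBelow _ (ch_sub_split (mem_ch.mpr ⟨j, hj, rfl⟩))
      obtain ⟨h3, hh3⟩ := PP.exists' hS φ hw hb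
      have e1 := PP.run hq _ _ _ hl1 hs1 hh3
      rw [hdia] at hh3
      have e2 := PP.run hp _ _ _ hl2 hs2 hh3
      rw [ih n1 hn1 _ h1 _ hv1 hc1 hh1 e1, ih n2 hn2 _ h2 _ hv2 hc2 hh2 e2, ← mul_assoc,
        ← mul_assoc]
      rw [hdi (v.card + p * q) v f p q hv hf hp hq hpq (by omega)]
  · -- the square
    have hg1 : g ∈ split v f p := mem_split_of_ne hg (Ne.symm hfg)
    have hf2 : f ∈ split v g q := mem_split_of_ne hf hfg
    have hcomm := split_comm hS hv hf hg hfg hp hq
    have hw : Frame S (split (split v f p) g q) := frame_split hS hv1 hg1 hq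
    have hb : Below S M (split (split v f p) g q) := by
      intro x hx
      rcases mem_split.mp hx with ⟨hx, _⟩ | hx
      · exact hh1.isBelow x hx
      · exact hh2.isBelow x (ch_sub_split hx)
    obtain ⟨h3, hh3⟩ := PP.exists' hS φ hw hb
    have e1 := PP.step _ g q h3 hg1 hq hh3
    have hh3' := hh3
    rw [hcomm] at hh3'
    have e2 := PP.step _ f p h3 hf2 hp hh3'
    rw [← hcomm] at e2
    rw [ih n1 hn1 _ h1 _ hv1 hc1 hh1 e1, ih n2 hn2 _ h2 _ hv2 hc2 hh2 e2, ← mul_assoc,
      ← mul_assoc]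
    rw [SqFlat.bot hS (hsq (v.card + p + q)) hv hf hg hfg hp hq (by omega)]

theorem PP.unique' (hS : PS S) {φ : V → V → H} (hsq : ∀ n, SqFlat S φ n)
    (hdi : ∀ n, DiFlat S φ n) {M : ℤ} (hM : 0 < M) {v : V} {h h' : H} (hv : Frame S v)
    (hp : PP S φ M v h) (hp' : PP S φ M v h') : h = h' :=
  PP.unique hS hsq hdi hM M.toNat v h h' hv (by omega) hp hp'

/-- change of the modulus -/
theorem PP.change {φ : V → V → H} {M M' : ℤ} {κ : H} {v : V} {h : H} (hp : PP S φ M v h)
    (hκ : PP S φ M' (UM M) κ) : PP S φ M' v (h * κ) := by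
  induction hp with
  | done => rw [one_mul]; exact hκ
  | step v f p h hf hp _ ih =>
    rw [mul_assoc]
    exact PP.step v f p _ hf hp ih

theorem PP.exists_change (hS : PS S) (φ : V → V → H) {M k : ℤ} (hM : Sm S M) (hk : Sm S k) :
    ∃ κ, PP S φ (M * k) (UM M) κ := by
  refine PP.exists' hS φ (frame_UM hM) ?_
  intro f hf
  obtain ⟨s, h0, h1, rfl⟩ := mem_UM.mp hf
  exact res_cn hS hk M s hM.pos h0 h1

/-- the value of the potential at `v` -/
theorem exists_pot (hS : PS S) {φ : V → V → H} (hsq : ∀ n, SqFlat S φ n)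
    (hdi : ∀ n, DiFlat S φ n) {v : V} (hv : Frame S v) :
    ∃ z : H, ∀ (M : ℤ) (h0 h : H), Sm S M → PP S φ M {id} h0 → PP S φ M v h → z = h0 * h⁻¹ := by
  obtain ⟨A, hA, hAb⟩ := exists_below hS hv.pc
  obtain ⟨B, hB, hBb⟩ := exists_below hS (frame_id (S := S)).pc
  have hb1 : Below S (A * B) v := hAb B hB
  have hb0 : Below S (A * B) ({id} : V) := by
    rw [mul_comm]
    exact hBb A hA
  have hM := hA.mul hB
  obtain ⟨a0, ha0⟩ := PP.exists' hS φ (frame_id (S := S)) hb0
  obtain ⟨a, ha⟩ := PP.exists' hS φ hv hb1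
  refine ⟨a0 * a⁻¹, ?_⟩
  intro M h0 h hM' hh0 hh
  obtain ⟨κ, hκ⟩ := PP.exists_change hS φ hM hM'
  obtain ⟨κ', hκ'⟩ := PP.exists_change hS φ hM' hM
  rw [mul_comm] at hκ'
  have hMM := (hM.mul hM').pos
  have e0 := PP.unique' hS hsq hdi hMM (frame_id (S := S)) (ha0.change hκ) (hh0.change hκ')
  have e1 := PP.unique' hS hsq hdi hMM hv (ha.change hκ) (hh.change hκ')
  calc a0 * a⁻¹ = (a0 * κ) * (a * κ)⁻¹ := by group
    _ = (h0 * κ') * (h * κ')⁻¹ := by rw [e0, e1]
    _ = h0 * h⁻¹ := by group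

/-- **piece POT** -/
theorem statPot (hS : PS S) : StatPot S := by
  intro H _ φ hsq hdi
  have hex : ∀ v : V, ∃ z : H, Frame S v → ∀ (M : ℤ) (h0 h : H), Sm S M → PP S φ M {id} h0 →
      PP S φ M v h → z = h0 * h⁻¹ := by
    intro v
    by_cases hv : Frame S v
    · obtain ⟨z, hz⟩ := exists_pot hS hsq hdi hv
      exact ⟨z, fun _ => hz⟩
    · exact ⟨1, fun h => absurd h hv⟩
  choose F hF using hex
  refine ⟨F, ?_⟩
  intro v f p hv hf hp
  have hw := frame_split hS hv hf hp
  obtain ⟨A, hA, hAb⟩ := exists_below hS hw.pc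
  obtain ⟨B, hB, hBb⟩ := exists_below hS (frame_id (S := S)).pc
  have hb1 : Below S (A * B) (split v f p) := hAb B hB
  have hb0 : Below S (A * B) ({id} : V) := by
    rw [mul_comm]
    exact hBb A hA
  have hM := hA.mul hB
  obtain ⟨a0, ha0⟩ := PP.exists' hS φ (frame_id (S := S)) hb0
  obtain ⟨a, ha⟩ := PP.exists' hS φ hw hb1
  have e1 := hF (split v f p) hw (A * B) a0 a hM ha0 ha
  have e2 := hF v hv (A * B) a0 _ hM ha0 (PP.step v f p a hf hp ha)
  rw [e1, e2]
  group

end Pool.Agent.Run7.h341.CTF
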