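import Pool.Agent.Run7.h341.CTF.Base

/-!
# `CT_P(ℤ)` is finitely presented: resolutions of frames

`Res S M f`: repeated splitting turns `f` into cones of modulus `M`.  `Below S M v`: all elements of
`v` have this property.  Used by the pieces POT and CONN.
-/

set_option autoImplicit false

noncomputable section

open scoped Classical

namespace Pool.Agent.Run7.h341.CTF

open Equiv

variable {S : Finset ℕ}

/-- repeated splitting turns `f` into cones of modulus `M` -/
inductive Res (S : Finset ℕ) (M : ℤ) : (ℤ → ℤ) → Prop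
  | cone (s : ℤ) (h0 : 0 ≤ s) (h1 : s < M) : Res S M (cn M s)
  | spl (f : ℤ → ℤ) (p : ℕ) (hp : p ∈ S) (h : ∀ j : ℕ, j < p → Res S M (f ∘ cn (p : ℤ) j)) :
      Res S M f

/-- all elements of `v` can be resolved -/
def Below (S : Finset ℕ) (M : ℤ) (v : V) : Prop := ∀ f ∈ v, Res S M f

/-- the frame of all residue classes modulo `M` -/
def UM (M : ℤ) : V := (Finset.range M.toNat).image (fun s : ℕ => cn M (s : ℤ))

theorem mem_UM {M : ℤ} {f : ℤ → ℤ} : f ∈ UM M ↔ ∃ s : ℤ, 0 ≤ s ∧ s < M ∧ f = cn M s := by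
  unfold UM
  simp only [Finset.mem_image, Finset.mem_range]
  constructor
  · rintro ⟨s, hs, rfl⟩
    exact ⟨s, by omega, by omega, rfl⟩
  · rintro ⟨s, h0, h1, rfl⟩
    refine ⟨s.toNat, by omega, ?_⟩
    rw [Int.toNat_of_nonneg h0]

/-- a resolved function has a piece which is a cone of modulus `M` -/
theorem Res.piece (hS : PS S) {M : ℤ} {f : ℤ → ℤ} (h : Res S M f) :
    ∃ m r s : ℤ, 0 < m ∧ 0 ≤ s ∧ s < M ∧ f ∘ cn m r = cn M s := by
  induction h with
  | cone s h0 h1 => exact ⟨1, 0, s, one_pos, h0, h1, by rw [cn_comp]; simp⟩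
  | spl f p hp h ih =>
    have hp0 : 0 < p := (hS.prime p hp).pos
    obtain ⟨m, r, s, hm, h0, h1, he⟩ := ih 0 hp0
    refine ⟨p * m, ((0 : ℕ) : ℤ) + p * r, s, by positivity, h0, h1, ?_⟩
    rw [← cn_comp, ← Function.comp_assoc, he]

/-- the piece over a given class -/
theorem Res.piece_at (hS : PS S) {M : ℤ} {f : ℤ → ℤ} (h : Res S M f) {s : ℤ} (h0 : 0 ≤ s)
    (h1 : s < M) : ∀ y x : ℤ, f y = s + M * x → ∃ m r : ℤ, 0 < m ∧ f ∘ cn m r = cn M s := by
  induction h with
  | cone s' h0' h1' =>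
    intro y x hy
    rw [cn_apply] at hy
    have h2 : s' % M = s % M := by
      have e1 : (s' + M * y) % M = s' % M := Int.add_mul_emod_self_left _ _ _
      have e2 : (s + M * x) % M = s % M := Int.add_mul_emod_self_left _ _ _
      rw [← e1, ← e2, hy]
    rw [Int.emod_eq_of_lt h0' h1', Int.emod_eq_of_lt h0 h1] at h2
    subst h2
    exact ⟨1, 0, one_pos, by rw [cn_comp]; simp⟩
  | spl f p hp h ih =>
    intro y x hy
    have hp0 : 0 < p := (hS.prime p hp).pos
    have hp1 : (0 : ℤ) < p := by exact_mod_cast hp0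
    have hm0 : 0 ≤ y % p := Int.emod_nonneg _ hp1.ne'
    have hm1 : y % p < p := Int.emod_lt_of_pos _ hp1
    obtain ⟨m, r, hm, he⟩ := ih (y % p).toNat (by omega) (y / p) x (by
      rw [Function.comp_apply, cn_apply, Int.toNat_of_nonneg hm0]
      rw [Int.emod_add_mul_ediv]
      exact hy)
    refine ⟨p * m, ((y % p).toNat : ℤ) + p * r, by positivity, ?_⟩
    rw [← cn_comp, ← Function.comp_assoc, he]

/-- the key step towards common refinements -/
theorem Res.child_of_div (hS : PS S) {M : ℤ} {g : ℤ → ℤ} {q : ℕ} (hq : q ∈ S) (h : Res S M g) :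
    (∀ m r s : ℤ, 0 < m → 0 ≤ s → s < M → g ∘ cn m r = cn M s → (q : ℤ) ∣ m) →
    ∀ j : ℕ, j < q → Res S M (g ∘ cn (q : ℤ) j) := by
  have hqp := hS.prime q hq
  induction h with
  | cone s h0 h1 =>
    intro hd
    exfalso
    have h2 := hd 1 0 s one_pos h0 h1 (by rw [cn_comp]; simp)
    have h3 : q ∣ 1 := by exact_mod_cast h2
    exact hqp.one_lt.ne' (Nat.dvd_one.mp h3)
  | spl f p hp h ih =>
    intro hd j hj
    by_cases hpq : p = q
    · subst hpq
      exact h j hj
    · have hpp := hS.prime p hp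
      have hco : IsCoprime (q : ℤ) (p : ℤ) := by
        rw [Nat.isCoprime_iff_coprime]
        exact (Nat.coprime_primes hqp hpp).mpr (Ne.symm hpq)
      refine Res.spl _ p hp ?_
      intro i' hi'
      obtain ⟨i, j', hi, hj', he⟩ := cn_swap (p := p) (q := q) hpp.pos hj hi'
      have h1 : (f ∘ cn (q : ℤ) (j : ℤ)) ∘ cn (p : ℤ) (i' : ℤ) =
          (f ∘ cn (p : ℤ) (i : ℤ)) ∘ cn (q : ℤ) (j' : ℤ) := by
        rw [Function.comp_assoc, he, Function.comp_assoc]
      rw [h1]
      refine ih i hi ?_ j' hj'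
      intro m r s hm hs0 hs1 hms
      have h2 : (q : ℤ) ∣ p * m := by
        refine hd (p * m) (i + p * r) s (by have := hpp.pos; positivity) hs0 hs1 ?_
        rw [← cn_comp, ← Function.comp_assoc, hms]
      exact hco.dvd_of_dvd_mul_left h2

/-- common refinement of a `p`-split and a `q`-split -/
theorem Res.lcm (hS : PS S) {M : ℤ} {f : ℤ → ℤ} (hf : Function.Injective f) {p q : ℕ} (hp : p ∈ S)
    (hq : q ∈ S) (hpq : p ≠ q) (h1 : ∀ i : ℕ, i < p → Res S M (f ∘ cn (p : ℤ) i))
    (h2 : ∀ j : ℕ, j < q → Res S M (f ∘ cn (q : ℤ) j)) {i j : ℕ} (hi : i < p) (hj : j < q) :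
    Res S M ((f ∘ cn (p : ℤ) i) ∘ cn (q : ℤ) j) := by
  have hpp := hS.prime p hp
  have hqp := hS.prime q hq
  have hq1 : (0 : ℤ) < q := by exact_mod_cast hqp.pos
  have hco : IsCoprime (q : ℤ) (p : ℤ) := by
    rw [Nat.isCoprime_iff_coprime]
    exact (Nat.coprime_primes hqp hpp).mpr (Ne.symm hpq)
  refine (h1 i hi).child_of_div hS hq ?_ j hj
  intro m r s hm hs0 hs1 hms
  -- the class `s (mod M)` is met by `f` at `i + p r`
  set x0 : ℤ := i + p * r with hx0
  have hval : f x0 = s + M * 0 := by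
    have := congrFun hms 0
    simp only [Function.comp_apply, cn_apply] at this
    rw [hx0]
    simpa using this
  have hm0 : 0 ≤ x0 % q := Int.emod_nonneg _ hq1.ne'
  have hm1 : x0 % q < q := Int.emod_lt_of_pos _ hq1
  obtain ⟨m', r', hm', he⟩ := (h2 (x0 % q).toNat (by omega)).piece_at hS hs0 hs1 (x0 / q) 0 (by
    rw [Function.comp_apply, cn_apply, Int.toNat_of_nonneg hm0, Int.emod_add_mul_ediv]
    exact hval)
  have h3 : (cn (p : ℤ) i ∘ cn m r : ℤ → ℤ) = cn (q : ℤ) ((x0 % q).toNat : ℤ) ∘ cn m' r' := by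
    funext y
    apply hf
    have e1 := congrFun hms y
    have e2 := congrFun he y
    simp only [Function.comp_apply] at e1 e2 ⊢
    rw [e1, e2]
  rw [cn_comp, cn_comp, cn_eq_iff] at h3
  have h4 : (q : ℤ) ∣ p * m := ⟨m', h3.1⟩
  exact hco.dvd_of_dvd_mul_left h4

theorem Below.card_le (hS : PS S) {M : ℤ} {v : V} (hv : Frame S v) (h : Below S M v) :
    (v.card : ℤ) ≤ M := by
  have hex : ∀ f ∈ v, ∃ s : ℕ, (s : ℤ) < M ∧ ∃ x, f x = s := by
    intro f hf
    obtain ⟨m, r, s, hm, h0, h1, he⟩ := (h f hf).piece hS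
    refine ⟨s.toNat, by omega, r, ?_⟩
    have := congrFun he 0
    simp only [Function.comp_apply, cn_apply] at this
    rw [Int.toNat_of_nonneg h0]
    simpa using this
  choose! σ hσ using hex
  have h1 : v.card ≤ (Finset.range M.toNat).card := by
    apply Finset.card_le_card_of_injOn σ
    · intro f hf
      have := (hσ f hf).1
      simp only [Finset.coe_range, Set.mem_Iio]
      omega
    · intro f hf g hg hfg
      obtain ⟨x, hx⟩ := (hσ f hf).2
      obtain ⟨y, hy⟩ := (hσ g hg).2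
      apply hv.dis f hf g hg x y
      rw [hx, hy]
      exact_mod_cast hfg
  rw [Finset.card_range] at h1
  by_cases h0 : v = ∅
  · exfalso
    obtain ⟨f, hf, _⟩ := hv.cov 0
    rw [h0] at hf
    simp at hf
  · obtain ⟨f, hf⟩ := Finset.nonempty_iff_ne_empty.mpr h0
    have := (hσ f hf).1
    omega

theorem frame_UM {M : ℤ} (hM : Sm S M) : Frame S (UM M) := by
  have hM0 := hM.pos
  constructor
  · intro f hf
    obtain ⟨s, h0, h1, rfl⟩ := mem_UM.mp hf
    exact pc_cn hM h0 h1
  · intro x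
    refine ⟨cn M (x % M), mem_UM.mpr ⟨x % M, Int.emod_nonneg _ hM0.ne', Int.emod_lt_of_pos _ hM0,
      rfl⟩, x / M, ?_⟩
    rw [cn_apply, Int.emod_add_mul_ediv]
  · intro f hf g hg y z hyz
    obtain ⟨s, h0, h1, rfl⟩ := mem_UM.mp hf
    obtain ⟨t, h2, h3, rfl⟩ := mem_UM.mp hg
    rw [cn_apply, cn_apply] at hyz
    have h4 : s % M = t % M := by
      have e1 : (s + M * y) % M = s % M := Int.add_mul_emod_self_left _ _ _
      have e2 : (t + M * z) % M = t % M := Int.add_mul_emod_self_left _ _ _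
      rw [← e1, ← e2, hyz]
    rw [Int.emod_eq_of_lt h0 h1, Int.emod_eq_of_lt h2 h3] at h4
    rw [h4]

theorem card_UM {M : ℤ} (hM : 0 < M) : ((UM M).card : ℤ) = M := by
  unfold UM
  rw [Finset.card_image_of_injective]
  · rw [Finset.card_range]
    omega
  · intro a b hab
    have := (cn_eq_iff.mp hab).2
    exact_mod_cast this

theorem below_UM {M : ℤ} : Below S M (UM M) := by
  intro f hf
  obtain ⟨s, h0, h1, rfl⟩ := mem_UM.mp hf
  exact Res.cone s h0 h1

/-- a frame of cones of modulus `M` is the full one -/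
theorem eq_UM {M : ℤ} {v : V} (hv : Frame S v)
    (h : ∀ f ∈ v, ∃ s : ℤ, 0 ≤ s ∧ s < M ∧ f = cn M s) : v = UM M := by
  apply Finset.Subset.antisymm
  · intro f hf
    exact mem_UM.mpr (h f hf)
  · intro g hg
    obtain ⟨s, h0, h1, rfl⟩ := mem_UM.mp hg
    obtain ⟨f, hf, y, hy⟩ := hv.cov s
    obtain ⟨t, h2, h3, rfl⟩ := h f hf
    rw [cn_apply] at hy
    have h4 : t % M = s % M := by
      have e1 : (t + M * y) % M = t % M := Int.add_mul_emod_self_left _ _ _
      rw [← e1, hy]
    rw [Int.emod_eq_of_lt h2 h3, Int.emod_eq_of_lt h0 h1] at h4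
    rw [← h4]
    exact hf

/-- either `v` is the full frame or something can be split -/
theorem Below.cases {M : ℤ} {v : V} (hv : Frame S v) (h : Below S M v) :
    v = UM M ∨ ∃ f ∈ v, ∃ p ∈ S, Below S M (split v f p) := by
  by_cases hc : ∀ f ∈ v, ∃ s : ℤ, 0 ≤ s ∧ s < M ∧ f = cn M s
  · exact Or.inl (eq_UM hv hc)
  · right
    push Not at hc
    obtain ⟨f, hf, hn⟩ := hc
    refine ⟨f, hf, ?_⟩
    cases h f hf with
    | cone s h0 h1 => exact absurd rfl (hn s h0 h1)
    | spl _ p hp hch =>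
      refine ⟨p, hp, ?_⟩
      intro g hg
      rcases mem_split.mp hg with ⟨h1, h2⟩ | h1
      · exact h g h1
      · obtain ⟨j, hj, rfl⟩ := mem_ch.mp h1
        exact hch j hj

/-- going back along a split -/
theorem Below.of_split {M : ℤ} {v : V} {f : ℤ → ℤ} {p : ℕ} (hp : p ∈ S)
    (h : Below S M (split v f p)) : Below S M v := by
  intro g hg
  by_cases hgf : g = f
  · subst hgf
    refine Res.spl g p hp ?_
    intro j hj
    exact h _ (mem_split.mpr (Or.inr (mem_ch.mpr ⟨j, hj, rfl⟩)))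
  · exact h g (mem_split.mpr (Or.inl ⟨hg, hgf⟩))

/-- cones can be resolved to all smooth multiples of their modulus -/
theorem res_cn (hS : PS S) {k : ℤ} (hk : Sm S k) :
    ∀ m r : ℤ, 0 < m → 0 ≤ r → r < m → Res S (m * k) (cn m r) := by
  refine Sm.ind (P := fun k => ∀ m r : ℤ, 0 < m → 0 ≤ r → r < m → Res S (m * k) (cn m r)) ?_ ?_ hk
  · intro m r hm h0 h1
    rw [mul_one]
    exact Res.cone r h0 h1
  · intro p k hp hk ih m r hm h0 h1
    have hp0 : (0 : ℤ) < p := by exact_mod_cast (hS.prime p hp).pos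
    refine Res.spl _ p hp ?_
    intro j hj
    rw [cn_comp, ← mul_assoc]
    have hj' : (j : ℤ) + 1 ≤ p := by exact_mod_cast hj
    refine ih (m * p) (r + m * j) (by positivity) (by positivity) ?_
    nlinarith [mul_le_mul_of_nonneg_left hj' hm.le]

/-- if all `k` pieces of `f` can be resolved, so can `f` -/
theorem res_of_pieces (hS : PS S) {M k : ℤ} (hk : Sm S k) :
    ∀ f : ℤ → ℤ, (∀ i : ℤ, 0 ≤ i → i < k → Res S M (f ∘ cn k i)) → Res S M f := by
  refine Sm.ind (P := fun k => ∀ f : ℤ → ℤ, (∀ i : ℤ, 0 ≤ i → i < k → Res S M (f ∘ cn k i)) →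
    Res S M f) ?_ ?_ hk
  · intro f h
    have := h 0 le_rfl one_pos
    rwa [cn_one, Function.comp_id] at this
  · intro p k hp hk ih f h
    have hp0 : (0 : ℤ) < p := by exact_mod_cast (hS.prime p hp).pos
    refine Res.spl _ p hp ?_
    intro j hj
    refine ih _ ?_
    intro i h0 h1
    rw [Function.comp_assoc, cn_comp]
    have hj' : (j : ℤ) + 1 ≤ p := by exact_mod_cast hj
    refine h _ (by positivity) ?_
    nlinarith [mul_le_mul_of_nonneg_left (show i + 1 ≤ k by omega) hp0.le]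

/-- every piecewise canonical injection can be resolved, for all smooth multiples of some modulus -/
theorem exists_res (hS : PS S) {f : ℤ → ℤ} (hf : PC S f) :
    ∃ A : ℤ, Sm S A ∧ ∀ k : ℤ, Sm S k → Res S (A * k) f := by
  obtain ⟨hinj, M, hM, hc⟩ := hf
  have hfin : ∀ n : ℕ, (n : ℤ) ≤ M → ∃ A : ℤ, Sm S A ∧ ∀ k : ℤ, Sm S k → ∀ i : ℤ, 0 ≤ i → i < n →
      Res S (A * k) (f ∘ cn M i) := by
    intro n
    induction n with
    | zero =>
      intro _
      exact ⟨1, Sm.one, fun k hk i h0 h1 => absurd h1 (by push_cast; omega)⟩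
    | succ n ih =>
      intro hn
      push_cast at hn
      obtain ⟨A, hA, h⟩ := ih (by omega)
      obtain ⟨m, r, hm, h0, h1, he⟩ := hc n (by omega) (by omega)
      refine ⟨m * A, hm.mul hA, ?_⟩
      intro k hk i hi0 hi1
      push_cast at hi1
      by_cases hin : i = n
      · subst hin
        rw [he, mul_assoc]
        exact res_cn hS (hA.mul hk) m r hm.pos h0 h1
      · have := h (m * k) (hm.mul hk) i hi0 (by omega)
        rwa [show A * (m * k) = m * A * k by ring] at this
  obtain ⟨A, hA, h⟩ := hfin M.toNat (by have := hM.pos; omega)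
  refine ⟨A, hA, fun k hk => res_of_pieces hS hM f ?_⟩
  intro i h0 h1
  exact h k hk i h0 (by have := hM.pos; omega)

/-- every frame can be resolved, for all smooth multiples of some modulus -/
theorem exists_below (hS : PS S) {v : V} (hv : ∀ f ∈ v, PC S f) :
    ∃ A : ℤ, Sm S A ∧ ∀ k : ℤ, Sm S k → Below S (A * k) v := by
  induction v using Finset.induction_on with
  | empty => exact ⟨1, Sm.one, fun k hk f hf => by simp at hf⟩
  | insert a v ha ih =>
    obtain ⟨A, hA, h⟩ := ih (fun f hf => hv f (Finset.mem_insert_of_mem hf))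
    obtain ⟨B, hB, h'⟩ := exists_res hS (hv a (Finset.mem_insert_self a v))
    refine ⟨A * B, hA.mul hB, ?_⟩
    intro k hk f hf
    rcases Finset.mem_insert.mp hf with rfl | hf
    · have := h' (A * k) (hA.mul hk)
      rwa [show B * (A * k) = A * B * k by ring] at this
    · have := h (B * k) (hB.mul hk) f hf
      rwa [show A * (B * k) = A * B * k by ring] at this

end Pool.Agent.Run7.h341.CTF
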